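import Pool.Agent.Y811.PC.Stm4
import Pool.Agent.Y429.PC.CUSP

/-!
# Project PC: the law in the parameter scale, primitive parameters
-/

set_option autoImplicit false

open Complex Metric Set Filter Topology

namespace Pool.Agent.Y547.PC

open Pool.Agent.Y811.PC Pool.Agent.H712R2 Pool.Agent.H713R2 N62a1eb23
open Pool.Agent.Y429.PC.CUSP (lim_of_bounds)

theorem dd {K : ℂ → ℂ} {z₀ : ℂ} (hK : AnalyticAt ℂ K z₀) :
    deriv (deriv fun z => z + (z - z₀) ^ 2 * K z) z₀ = 2 * K z₀ := by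
  have e0 : ∀ z : ℂ, HasDerivAt (fun z : ℂ => (z - z₀) ^ 2) (2 * (z - z₀)) z := by
    intro z
    have h : HasDerivAt (fun z : ℂ => (z - z₀) ^ 2) (((2 : ℕ) : ℂ) * (z - z₀) ^ (2 - 1) * 1) z :=
      ((hasDerivAt_id z).sub_const z₀).pow 2
    exact h.congr_deriv (by norm_num)
  have h1 : (deriv fun z => z + (z - z₀) ^ 2 * K z) =ᶠ[𝓝 z₀]
      fun z => 1 + (2 * (z - z₀) * K z + (z - z₀) ^ 2 * deriv K z) := by
    filter_upwards [hK.eventually_analyticAt] with z hz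
    exact ((hasDerivAt_id z).add ((e0 z).mul hz.differentiableAt.hasDerivAt)).deriv
  rw [h1.deriv_eq]
  have e1 : HasDerivAt (fun z : ℂ => 2 * (z - z₀)) (2 * 1) z₀ :=
    ((hasDerivAt_id z₀).sub_const z₀).const_mul 2
  have e2 := ((e1.mul hK.differentiableAt.hasDerivAt).add
    ((e0 z₀).mul hK.deriv.differentiableAt.hasDerivAt)).const_add 1
  have e3 := e2.deriv
  refine Eq.trans e3 ?_
  ring

section
variable {d m : ℕ} {c₀ z₀ : ℂ} {a : ℂ → ℂ}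

theorem germ_nhds (hg : Germ d m 1 c₀ z₀ a) :
    ∀ᶠ z in 𝓝 z₀, G d m c₀ z = z + (z - z₀) ^ 2 * a (z - z₀) := by
  have h1 : Tendsto (fun z : ℂ => z - z₀) (𝓝 z₀) (𝓝 0) := by
    have : ContinuousAt (fun z : ℂ => z - z₀) z₀ := by fun_prop
    simpa using this.tendsto
  filter_upwards [h1.eventually hg.2.2] with z hz
  simpa using hz

theorem an_shift (hg : Germ d m 1 c₀ z₀ a) : AnalyticAt ℂ (fun z => a (z - z₀)) z₀ := by
  have h1 : AnalyticAt ℂ (fun z : ℂ => z - z₀) z₀ := by fun_prop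
  have h2 : AnalyticAt ℂ a (z₀ - z₀) := by
    rw [sub_self]
    exact hg.1
  exact AnalyticAt.comp (g := a) (f := fun z => z - z₀) h2 h1

theorem second (hg : Germ d m 1 c₀ z₀ a) : deriv (deriv (G d m c₀)) z₀ = 2 * a 0 := by
  have h1 : G d m c₀ =ᶠ[𝓝 z₀] fun z => z + (z - z₀) ^ 2 * a (z - z₀) := germ_nhds hg
  rw [(h1.deriv).deriv_eq, dd (K := fun z => a (z - z₀)) (an_shift hg)]
  simp

/-- the fixed points near `(c₀, z₀)` -/
noncomputable def fl (d m : ℕ) (c₀ z₀ : ℂ) : Filter (ℂ × ℂ) := 𝓝 (c₀, z₀) ⊓ 𝓟 {p | G d m p.1 p.2 = p.2}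

theorem fl_le : fl d m c₀ z₀ ≤ 𝓝 (c₀, z₀) := inf_le_left

theorem fl_fix : ∀ᶠ p in fl d m c₀ z₀, G d m p.1 p.2 = p.2 := by
  have : {p : ℂ × ℂ | G d m p.1 p.2 = p.2} ∈ fl d m c₀ z₀ :=
    mem_inf_of_right (mem_principal_self _)
  exact this

theorem A1 (hA : S_ANA) (hD : deriv (fun c => G d m c z₀) c₀ ≠ 0) :
    Asymptotics.IsEquivalent (fl d m c₀ z₀) (fun p => p.2 - G d m c₀ p.2)
      (fun p => deriv (fun c => G d m c z₀) c₀ * (p.1 - c₀)) := by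
  set D := deriv (fun c => G d m c z₀) c₀ with hDd
  have hG := ((hA d m c₀ z₀).1).hasStrictFDerivAt
  set G' := fderiv ℂ (fun p : ℂ × ℂ => G d m p.1 p.2) (c₀, z₀) with hG'
  have hG1 : G' (1, 0) = D := by
    have e1 : HasDerivAt (fun c : ℂ => (c, z₀)) (1, 0) c₀ :=
      (hasDerivAt_id c₀).prodMk (hasDerivAt_const c₀ z₀)
    have e2 := (hG.hasFDerivAt.comp_hasDerivAt c₀ e1).deriv
    rw [hDd]
    exact e2.symm
  have h1 := hG.isLittleO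
  have h2 : Tendsto (fun p : ℂ × ℂ => (p, ((c₀, p.2) : ℂ × ℂ))) (fl d m c₀ z₀)
      (𝓝 ((c₀, z₀), (c₀, z₀))) := by
    have : Continuous (fun p : ℂ × ℂ => (p, ((c₀, p.2) : ℂ × ℂ))) := by fun_prop
    exact (this.tendsto (c₀, z₀)).mono_left fl_le
  have h3 := h1.comp_tendsto h2
  have h4 : (fun p : ℂ × ℂ => (p.2 - G d m c₀ p.2) - D * (p.1 - c₀)) =o[fl d m c₀ z₀]
      (fun p : ℂ × ℂ => p - ((c₀, p.2) : ℂ × ℂ)) := by
    refine h3.congr' ?_ (EventuallyEq.refl _ _)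
    filter_upwards [fl_fix (d := d) (m := m) (c₀ := c₀) (z₀ := z₀)] with p hp
    simp only [Function.comp_apply]
    rw [hp]
    have e1 : p - ((c₀, p.2) : ℂ × ℂ) = (p.1 - c₀) • ((1, 0) : ℂ × ℂ) := by
      ext <;> simp
    rw [e1, map_smul, hG1, smul_eq_mul]
    ring
  have h5 : (fun p : ℂ × ℂ => p - ((c₀, p.2) : ℂ × ℂ)) =O[fl d m c₀ z₀]
      (fun p : ℂ × ℂ => D * (p.1 - c₀)) := by
    refine Asymptotics.IsBigO.of_bound (‖D‖⁻¹) (Eventually.of_forall fun p => ?_)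
    have e1 : p - ((c₀, p.2) : ℂ × ℂ) = (p.1 - c₀, 0) := by
      ext <;> simp
    rw [e1, Prod.norm_mk, norm_zero, max_eq_left (norm_nonneg _), norm_mul, ← mul_assoc,
      inv_mul_cancel₀ (norm_ne_zero_iff.2 hD), one_mul]
  exact h4.trans_isBigO h5

theorem A2 (hA : S_ANA) (hg : Germ d m 1 c₀ z₀ a) (hD : deriv (fun c => G d m c z₀) c₀ ≠ 0) :
    Asymptotics.IsEquivalent (fl d m c₀ z₀)
      (fun p => deriv (fun c => G d m c z₀) c₀ * (p.1 - c₀))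
      (fun p => -a 0 * (p.2 - z₀) ^ 2) := by
  refine (A1 hA hD).symm.trans ?_
  have t2 : Tendsto (fun p : ℂ × ℂ => p.2) (fl d m c₀ z₀) (𝓝 z₀) :=
    (continuous_snd.tendsto (c₀, z₀)).mono_left fl_le
  have h1 : (fun p : ℂ × ℂ => p.2 - G d m c₀ p.2) =ᶠ[fl d m c₀ z₀]
      fun p => -a (p.2 - z₀) * (p.2 - z₀) ^ 2 := by
    filter_upwards [t2.eventually (germ_nhds hg)] with p hp
    rw [hp]
    ring
  have h2 : Asymptotics.IsEquivalent (fl d m c₀ z₀) (fun p : ℂ × ℂ => -a (p.2 - z₀))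
      (fun _ => -a 0) := by
    refine (Asymptotics.isEquivalent_const_iff_tendsto (neg_ne_zero.2 hg.2.1)).2 ?_
    have h3 : ContinuousAt (fun z => a (z - z₀)) z₀ := (an_shift hg).continuousAt
    have h4 := h3.tendsto.comp t2
    simp only [sub_self] at h4
    exact h4.neg
  exact (h2.mul Asymptotics.IsEquivalent.refl).congr_left h1.symm

theorem A3 (hA : S_ANA) (hg : Germ d m 1 c₀ z₀ a) (hD : deriv (fun c => G d m c z₀) c₀ ≠ 0)
    (hmu : mu d m c₀ z₀ = 1) :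
    Asymptotics.IsEquivalent (fl d m c₀ z₀) (fun p => mu d m p.1 p.2 - 1)
      (fun p => 2 * a 0 * (p.2 - z₀)) := by
  set D := deriv (fun c => G d m c z₀) c₀ with hDd
  have ha0 : a 0 ≠ 0 := hg.2.1
  have t2 : Tendsto (fun p : ℂ × ℂ => p.2 - z₀) (fl d m c₀ z₀) (𝓝 0) := by
    have : Continuous (fun p : ℂ × ℂ => p.2 - z₀) := by fun_prop
    have h := (this.tendsto (c₀, z₀)).mono_left (fl_le (d := d) (m := m))
    simpa using h
  -- `c - c₀ = o (v)`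
  have h1 : (fun p : ℂ × ℂ => p.1 - c₀) =o[fl d m c₀ z₀] (fun p : ℂ × ℂ => p.2 - z₀) := by
    have e1 : (fun p : ℂ × ℂ => D * (p.1 - c₀)) =O[fl d m c₀ z₀] (fun p => -a 0 * (p.2 - z₀) ^ 2) :=
      (A2 hA hg hD).isBigO
    have e2 : (fun p : ℂ × ℂ => p.1 - c₀) =O[fl d m c₀ z₀] (fun p => D * (p.1 - c₀)) :=
      Asymptotics.isBigO_self_const_mul hD _ _
    have e3 : (fun p : ℂ × ℂ => -a 0 * (p.2 - z₀) ^ 2) =o[fl d m c₀ z₀] (fun p => p.2 - z₀) := by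
      have e4 : (fun p : ℂ × ℂ => (p.2 - z₀) * (p.2 - z₀)) =o[fl d m c₀ z₀]
          (fun p => 1 * (p.2 - z₀)) :=
        ((Asymptotics.isLittleO_one_iff ℂ).2 t2).mul_isBigO (Asymptotics.isBigO_refl _ _)
      have e5 := e4.const_mul_left (-a 0)
      simpa [pow_two] using e5
    exact (e2.trans e1).trans_isLittleO e3
  have hM := ((hA d m c₀ z₀).2).hasStrictFDerivAt.hasFDerivAt
  set M' := fderiv ℂ (fun p : ℂ × ℂ => mu d m p.1 p.2) (c₀, z₀) with hM'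
  have hM1 : M' (0, 1) = 2 * a 0 := by
    have e1 : HasDerivAt (fun z : ℂ => (c₀, z)) (0, 1) z₀ :=
      (hasDerivAt_const z₀ c₀).prodMk (hasDerivAt_id z₀)
    have e2 := (hM.comp_hasDerivAt z₀ e1).deriv
    rw [← second hg]
    exact e2.symm
  have h2 := hM.isLittleO.mono (fl_le (d := d) (m := m))
  have h3 : (fun p : ℂ × ℂ => p - (c₀, z₀)) =O[fl d m c₀ z₀] (fun p : ℂ × ℂ => p.2 - z₀) :=
    h1.isBigO.prod_left (Asymptotics.isBigO_refl _ _)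
  have h4 : (fun p : ℂ × ℂ => (mu d m p.1 p.2 - 1) - 2 * a 0 * (p.2 - z₀)) =o[fl d m c₀ z₀]
      (fun p : ℂ × ℂ => p.2 - z₀) := by
    have e1 := (h2.trans_isBigO h3).add (h1.const_mul_left (M' (1, 0)))
    refine e1.congr_left fun p => ?_
    have e2 : p - ((c₀, z₀) : ℂ × ℂ) = (p.1 - c₀) • ((1, 0) : ℂ × ℂ) +
        (p.2 - z₀) • ((0, 1) : ℂ × ℂ) := by
      ext <;> simp
    rw [e2, map_add, map_smul, map_smul, hM1, smul_eq_mul, smul_eq_mul, hmu]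
    ring
  have h5 : (fun p : ℂ × ℂ => p.2 - z₀) =O[fl d m c₀ z₀]
      (fun p : ℂ × ℂ => 2 * a 0 * (p.2 - z₀)) :=
    Asymptotics.isBigO_self_const_mul (mul_ne_zero two_ne_zero ha0) _ _
  exact h4.trans_isBigO h5

theorem A4 (hA : S_ANA) (hg : Germ d m 1 c₀ z₀ a) (hD : deriv (fun c => G d m c z₀) c₀ ≠ 0)
    (hmu : mu d m c₀ z₀ = 1) :
    Asymptotics.IsEquivalent (fl d m c₀ z₀) (fun p => (mu d m p.1 p.2 - 1) ^ 2)
      (fun p => -4 * a 0 * (deriv (fun c => G d m c z₀) c₀ * (p.1 - c₀))) := by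
  have h1 := (A3 hA hg hD hmu).pow 2
  have h2 : Asymptotics.IsEquivalent (fl d m c₀ z₀) (fun _ : ℂ × ℂ => -4 * a 0)
    (fun _ => -4 * a 0) := Asymptotics.IsEquivalent.refl
  have h3 := h2.mul (A2 hA hg hD)
  refine h1.trans (h3.symm.congr_left (EventuallyEq.of_eq ?_))
  funext p
  simp only [Pi.mul_apply, Pi.pow_apply]
  ring

/-- comparison of the multiplier and the parameter -/
theorem est (hA : S_ANA) (hg : Germ d m 1 c₀ z₀ a) (hD : deriv (fun c => G d m c z₀) c₀ ≠ 0)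
    (hmu : mu d m c₀ z₀ = 1) {s : ℝ}
    (hs : s = √(2 * ‖deriv (fun c => G d m c z₀) c₀‖ * ‖deriv (deriv (G d m c₀)) z₀‖))
    (hs0 : 0 < s) (δ : ℝ) (hδ : 0 < δ) (hδ1 : δ < 1) :
    ∃ ε' : ℝ, 0 < ε' ∧ ∀ c α : ℂ, ‖c - c₀‖ ≤ ε' → ‖α - z₀‖ ≤ ε' → G d m c α = α →
      (1 - δ) * s * √‖c - c₀‖ ≤ ‖mu d m c α - 1‖ ∧
      ‖mu d m c α - 1‖ ≤ (1 + δ) * s * √‖c - c₀‖ := by
  set D := deriv (fun c => G d m c z₀) c₀ with hDd
  have hs2 : s ^ 2 = ‖-4 * a 0 * D‖ := by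
    rw [hs, Real.sq_sqrt (by positivity), second hg]
    simp only [norm_mul, norm_neg]
    have e1 : ‖(4 : ℂ)‖ = 4 := by simp
    have e2 : ‖(2 : ℂ)‖ = 2 := by simp
    rw [e1, e2]
    ring
  have h1 := (A4 hA hg hD hmu).isLittleO.def hδ
  have h2 : ∀ᶠ p in 𝓝 ((c₀, z₀) : ℂ × ℂ), G d m p.1 p.2 = p.2 →
      ‖(mu d m p.1 p.2 - 1) ^ 2 - -4 * a 0 * (D * (p.1 - c₀))‖ ≤
        δ * ‖-4 * a 0 * (D * (p.1 - c₀))‖ := by
    have h3 := h1
    unfold fl at h3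
    rw [eventually_inf_principal] at h3
    exact h3
  obtain ⟨R, hR, hR'⟩ := Metric.eventually_nhds_iff.1 h2
  refine ⟨R / 2, by positivity, ?_⟩
  intro c α hc hα hfix
  have h4 := hR' (y := (c, α)) (by
    rw [Prod.dist_eq]
    simp only [dist_eq_norm]
    exact max_lt (by linarith) (by linarith)) hfix
  simp only at h4
  have h5 : -4 * a 0 * (D * (c - c₀)) = -4 * a 0 * D * (c - c₀) := by ring
  rw [h5, norm_mul (-4 * a 0 * D), ← hs2] at h4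
  have h6 : ‖(mu d m c α - 1) ^ 2‖ = ‖mu d m c α - 1‖ ^ 2 := norm_pow _ _
  have h7 : ‖-4 * a 0 * D * (c - c₀)‖ = s ^ 2 * ‖c - c₀‖ := by rw [norm_mul, ← hs2]
  have h8 := norm_sub_norm_le ((mu d m c α - 1) ^ 2) (-4 * a 0 * D * (c - c₀))
  have h9 := norm_sub_norm_le (-4 * a 0 * D * (c - c₀)) ((mu d m c α - 1) ^ 2)
  rw [norm_sub_rev] at h9
  rw [h6, h7] at h8 h9
  have ht : 0 ≤ s ^ 2 * ‖c - c₀‖ := by positivity
  constructor
  · apply le_of_sq_le_sq _ (norm_nonneg _)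
    rw [mul_pow, mul_pow, Real.sq_sqrt (norm_nonneg _)]
    nlinarith
  · apply le_of_sq_le_sq _ (by positivity)
    rw [mul_pow, mul_pow, Real.sq_sqrt (norm_nonneg _)]
    nlinarith

/-- fixed points near `z₀` -/
theorem openm (h1 : S_IFT) (hA : S_ANA) (hfix : G d m c₀ z₀ = z₀) (hg : Germ d m 1 c₀ z₀ a)
    (hD : deriv (fun c => G d m c z₀) c₀ ≠ 0) (ε' : ℝ) (hε' : 0 < ε') :
    ∃ η : ℝ, 0 < η ∧ ∀ c : ℂ, ‖c - c₀‖ ≤ η → ∃ α : ℂ, ‖α - z₀‖ ≤ ε' ∧ G d m c α = α := by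
  have han : AnalyticAt ℂ (fun p : ℂ × ℂ => G d m p.2 p.1 - p.1) (z₀, c₀) := by
    have e1 : AnalyticAt ℂ (fun p : ℂ × ℂ => (p.2, p.1)) (z₀, c₀) :=
      analyticAt_snd.prod analyticAt_fst
    have e2 : AnalyticAt ℂ (fun p : ℂ × ℂ => G d m p.2 p.1) (z₀, c₀) :=
      AnalyticAt.comp (g := fun p : ℂ × ℂ => G d m p.1 p.2) (f := fun p : ℂ × ℂ => (p.2, p.1))
        (hA d m c₀ z₀).1 e1
    exact e2.sub analyticAt_fst
  have hder : deriv (fun y => (fun p : ℂ × ℂ => G d m p.2 p.1 - p.1) (z₀, y)) c₀ ≠ 0 := by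
    have : (fun y => (fun p : ℂ × ℂ => G d m p.2 p.1 - p.1) (z₀, y)) =
      fun y => G d m y z₀ - z₀ := rfl
    rw [this, deriv_sub_const]
    exact hD
  obtain ⟨δ, η, gam, hδ, hη, hdiff, hgam0, hF, -⟩ := h1 (fun p : ℂ × ℂ => G d m p.2 p.1 - p.1)
    z₀ c₀ han (by simp only; rw [hfix, sub_self]) hder
  have hgan : AnalyticAt ℂ gam z₀ := hdiff.analyticAt (ball_mem_nhds _ hδ)
  rcases hgan.eventually_constant_or_nhds_le_map_nhds with hc | hc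
  · exfalso
    rw [hgam0] at hc
    have h2 : ∀ᶠ z in 𝓝 z₀, G d m c₀ z = z := by
      filter_upwards [hc, ball_mem_nhds z₀ hδ] with z hz1 hz2
      have := hF z hz2
      simp only [hz1] at this
      exact sub_eq_zero.1 this
    have h3 : ∀ᶠ z in 𝓝 z₀, a (z - z₀) ≠ 0 := by
      have := (an_shift hg).continuousAt
      apply this.eventually_ne
      rw [sub_self]
      exact hg.2.1
    have h4 : ∀ᶠ z in 𝓝[≠] z₀, z ≠ z₀ := self_mem_nhdsWithin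
    obtain ⟨z, ⟨⟨hz1, hz2⟩, hz3⟩, hz4⟩ :=
      ((((h2.and h3).and (germ_nhds hg)).filter_mono nhdsWithin_le_nhds).and h4).exists
    rw [hz1] at hz3
    have h5 : (z - z₀) ^ 2 * a (z - z₀) = 0 := by linear_combination -hz3
    exact mul_ne_zero (pow_ne_zero 2 (sub_ne_zero.2 hz4)) hz2 h5
  · obtain ⟨ε₁, hε₁⟩ : ∃ ε₁, ε₁ = min ε' (δ / 2) := ⟨_, rfl⟩
    have hε₁0 : 0 < ε₁ := by
      rw [hε₁]
      exact lt_min hε' (by positivity)
    have h2 : gam '' closedBall z₀ ε₁ ∈ 𝓝 (gam z₀) :=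
      hc (image_mem_map (closedBall_mem_nhds _ hε₁0))
    rw [hgam0] at h2
    obtain ⟨η', hη', h3⟩ := Metric.nhds_basis_closedBall.mem_iff.1 h2
    refine ⟨η', hη', ?_⟩
    intro c hc'
    obtain ⟨α, hα, h4⟩ := h3 (show c ∈ closedBall c₀ η' by
      rw [mem_closedBall, dist_eq_norm]; exact hc')
    rw [mem_closedBall, dist_eq_norm] at hα
    refine ⟨α, hα.trans (by rw [hε₁]; exact min_le_left _ _), ?_⟩
    have h5 := hF α (by
      rw [mem_ball, dist_eq_norm]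
      have : ε₁ ≤ δ / 2 := by rw [hε₁]; exact min_le_right _ _
      linarith)
    simp only [h4] at h5
    exact sub_eq_zero.1 h5

/-- the law from the two comparisons -/
theorem law_core {ε₀ A s : ℝ} {ψ : ℂ → ℂ} (hψ : IsExteriorMap (multibrotSet d) ψ) (hApos : 0 < A)
    (hspos : 0 < s) (hA : A = 2 * Real.pi * m * Real.log d) (hmu : mu d m c₀ z₀ = 1)
    (hR : Rates d m 1 c₀ z₀ ε₀)
    (hest : ∀ δ : ℝ, 0 < δ → δ < 1 → ∃ ε' : ℝ, 0 < ε' ∧ ∀ c α : ℂ, ‖c - c₀‖ ≤ ε' →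
      ‖α - z₀‖ ≤ ε' → G d m c α = α → (1 - δ) * s * √‖c - c₀‖ ≤ ‖mu d m c α - 1‖ ∧
        ‖mu d m c α - 1‖ ≤ (1 + δ) * s * √‖c - c₀‖)
    (hopen : ∀ ε' : ℝ, 0 < ε' → ∃ η : ℝ, 0 < η ∧ ∀ c : ℂ, ‖c - c₀‖ ≤ η →
      ∃ α : ℂ, ‖α - z₀‖ ≤ ε' ∧ G d m c α = α) :
    Tendsto (fun ρ : ℝ => √ρ * Real.log (1 / sSup (Dr ψ c₀ ρ))) (𝓝[>] 0) (𝓝 (A / s)) := by
  obtain ⟨hε₀, hR1, hR2⟩ := hR
  simp only [Nat.cast_one, div_one, hmu] at hR1 hR2
  rw [← hA] at hR1 hR2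
  apply lim_of_bounds hApos hspos
  intro δ hδ hδ1 hδA
  obtain ⟨r₁, hr₁, H1⟩ := hR1 δ hδ
  obtain ⟨ε₁, hε₁, hest'⟩ := hest δ hδ hδ1
  obtain ⟨ε₂, hε₂⟩ : ∃ ε₂, ε₂ = min ε₁ ε₀ := ⟨_, rfl⟩
  have hε₂0 : 0 < ε₂ := by rw [hε₂]; exact lt_min hε₁ hε₀
  obtain ⟨η, hη, hop⟩ := hopen ε₂ hε₂0
  obtain ⟨r₂, hr₂, H2⟩ := hR2 δ ε₁ hδ hε₁
  -- smallness of ρ
  have t0 : Tendsto (fun ρ : ℝ => √ρ) (𝓝[>] 0) (𝓝 0) := by
    have := (Real.continuous_sqrt.tendsto 0).mono_left (nhdsWithin_le_nhds (s := Ioi (0:ℝ)))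
    rwa [Real.sqrt_zero] at this
  have t1 : ∀ᶠ ρ in 𝓝[>] (0:ℝ), (1 + δ) * s * √ρ < r₁ := by
    have := t0.const_mul ((1 + δ) * s)
    rw [mul_zero] at this
    exact this.eventually (gt_mem_nhds hr₁)
  have t2 : ∀ᶠ ρ in 𝓝[>] (0:ℝ), (1 - δ) * s * √ρ < r₂ := by
    have := t0.const_mul ((1 - δ) * s)
    rw [mul_zero] at this
    exact this.eventually (gt_mem_nhds hr₂)
  have t3 : ∀ᶠ ρ in 𝓝[>] (0:ℝ), ρ < min (min η ε₀) ε₁ ∧ 0 < ρ := by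
    filter_upwards [Ioo_mem_nhdsGT (show (0:ℝ) < min (min η ε₀) ε₁ from
      lt_min (lt_min hη hε₀) hε₁)] with ρ hρ
    exact ⟨hρ.2, hρ.1⟩
  filter_upwards [t1, t2, t3] with ρ hρ1 hρ2 hρ3
  obtain ⟨hρ3, hρ0⟩ := hρ3
  have hρη : ρ ≤ η := hρ3.le.trans ((min_le_left _ _).trans (min_le_left _ _))
  have hρε : ρ ≤ ε₀ := hρ3.le.trans ((min_le_left _ _).trans (min_le_right _ _))
  have hρε1 : ρ ≤ ε₁ := hρ3.le.trans (min_le_right _ _)
  have hsρ : 0 < √ρ := Real.sqrt_pos.2 hρ0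
  obtain ⟨L, hL⟩ : ∃ L, L = (A - δ) / ((1 + δ) * s * √ρ) := ⟨_, rfl⟩
  -- lower bound for all elements
  have low : ∀ h ∈ Dr ψ c₀ ρ, 0 < h ∧ L ≤ Real.log (1 / h) := by
    rintro h ⟨w, hw, rfl, hwρ⟩
    refine ⟨by linarith, ?_⟩
    obtain ⟨α, hα, hfix⟩ := hop (ψ w) (hwρ.trans hρη)
    have hα1 : ‖α - z₀‖ ≤ ε₁ := hα.trans (by rw [hε₂]; exact min_le_left _ _)
    have hα0 : ‖α - z₀‖ ≤ ε₀ := hα.trans (by rw [hε₂]; exact min_le_right _ _)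
    obtain ⟨_, q2⟩ := hest' (ψ w) α (hwρ.trans hρε1) hα1 hfix
    have hD : √‖ψ w - c₀‖ ≤ √ρ := Real.sqrt_le_sqrt hwρ
    have hM : ‖mu d m (ψ w) α - 1‖ ≤ (1 + δ) * s * √ρ :=
      q2.trans (mul_le_mul_of_nonneg_left hD (by positivity))
    have := H1 ψ hψ w α hw (hwρ.trans hρε) hα0 hfix (hM.trans hρ1.le)
    have hpos : 0 < A - δ := by linarith
    have hMl : 0 < ‖mu d m (ψ w) α - 1‖ * Real.log (1 / (‖w‖ - 1)) := hpos.trans_le this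
    have hlog : 0 < Real.log (1 / (‖w‖ - 1)) := by
      by_contra hcon
      push Not at hcon
      exact absurd hMl (not_lt.2 (mul_nonpos_of_nonneg_of_nonpos (norm_nonneg _) hcon))
    rw [hL, div_le_iff₀ (by positivity)]
    calc A - δ ≤ _ := this
      _ ≤ (1 + δ) * s * √ρ * Real.log (1 / (‖w‖ - 1)) := mul_le_mul_of_nonneg_right hM hlog.le
      _ = _ := by ring
  have bdd : ∀ h ∈ Dr ψ c₀ ρ, h ≤ Real.exp (-L) := by
    intro h hh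
    obtain ⟨h0, h1⟩ := low h hh
    rw [one_div, Real.log_inv] at h1
    rw [← Real.log_le_iff_le_exp h0]
    linarith
  -- an element
  obtain ⟨w, α, hw, hw1, hα, hfix, hM, hl⟩ := H2 ((1 - δ) * s * √ρ)
    (by have : 0 < 1 - δ := by linarith
        positivity) hρ2.le ψ hψ
  have hmem : ‖w‖ - 1 ∈ Dr ψ c₀ ρ := by
    refine ⟨w, hw, rfl, ?_⟩
    obtain ⟨q1, _⟩ := hest' (ψ w) α hw1 hα hfix
    have h1 : (1 - δ) * s * √‖ψ w - c₀‖ ≤ (1 - δ) * s * √ρ := q1.trans hM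
    have h2 : √‖ψ w - c₀‖ ≤ √ρ := le_of_mul_le_mul_left h1 (by
      have : 0 < 1 - δ := by linarith
      positivity)
    exact (Real.sqrt_le_sqrt_iff hρ0.le).1 h2
  have hB : BddAbove (Dr ψ c₀ ρ) := ⟨_, bdd⟩
  have hle : ‖w‖ - 1 ≤ sSup (Dr ψ c₀ ρ) := le_csSup hB hmem
  have hS : sSup (Dr ψ c₀ ρ) ≤ Real.exp (-L) := csSup_le ⟨_, hmem⟩ bdd
  have hw0 : 0 < ‖w‖ - 1 := by linarith
  have hS0 : 0 < sSup (Dr ψ c₀ ρ) := hw0.trans_le hle
  have hlogS : L ≤ Real.log (1 / sSup (Dr ψ c₀ ρ)) := by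
    rw [one_div, Real.log_inv]
    have := (Real.log_le_iff_le_exp hS0).2 hS
    linarith
  have hlogS2 : Real.log (1 / sSup (Dr ψ c₀ ρ)) ≤ Real.log (1 / (‖w‖ - 1)) := by
    apply Real.log_le_log (by positivity)
    exact one_div_le_one_div_of_le hw0 hle
  constructor
  · have : (A - δ) / ((1 + δ) * s) = √ρ * L := by
      rw [hL]; field_simp
    rw [this]
    exact mul_le_mul_of_nonneg_left hlogS hsρ.le
  · have h1δ : 0 < 1 - δ := by linarith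
    rw [le_div_iff₀ (by positivity)]
    calc √ρ * Real.log (1 / sSup (Dr ψ c₀ ρ)) * ((1 - δ) * s)
        = (1 - δ) * s * √ρ * Real.log (1 / sSup (Dr ψ c₀ ρ)) := by ring
      _ ≤ (1 - δ) * s * √ρ * Real.log (1 / (‖w‖ - 1)) :=
        mul_le_mul_of_nonneg_left hlogS2 (by positivity)
      _ ≤ A + δ := hl

end

/-- the law in the parameter scale, primitive parameters -/
theorem t_PRIM (h1 : S_IFT) (hA : S_ANA) : S_PRIM := by
  intro d m c₀ z₀ ε₀ a hP hR hg hD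
  have hmu : mu d m c₀ z₀ = 1 := by
    have := hP.mul.pow_eq_one
    rwa [pow_one] at this
  have hW : deriv (deriv (G d m c₀)) z₀ ≠ 0 := by
    rw [second hg]
    exact mul_ne_zero two_ne_zero hg.2.1
  refine ⟨hW, fun ψ hψ => ?_⟩
  have hd' : (2:ℝ) ≤ d := by exact_mod_cast hP.hd
  have hm' : (1:ℝ) ≤ m := by exact_mod_cast hP.hm
  obtain ⟨A, hAd⟩ : ∃ A : ℝ, A = 2 * Real.pi * m * Real.log d := ⟨_, rfl⟩
  obtain ⟨s, hs⟩ : ∃ s : ℝ, s =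
    √(2 * ‖deriv (fun c => G d m c z₀) c₀‖ * ‖deriv (deriv (G d m c₀)) z₀‖) := ⟨_, rfl⟩
  have hApos : 0 < A := by
    rw [hAd]
    have : 0 < Real.log d := Real.log_pos (by linarith)
    positivity
  have hspos : 0 < s := by
    rw [hs]
    apply Real.sqrt_pos.2
    have e1 : 0 < ‖deriv (fun c => G d m c z₀) c₀‖ := norm_pos_iff.2 hD
    have e2 : 0 < ‖deriv (deriv (G d m c₀)) z₀‖ := norm_pos_iff.2 hW
    positivity
  rw [← hAd, ← hs]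
  exact law_core hψ hApos hspos hAd hmu hR (fun δ hδ hδ1 => est hA hg hD hmu hs hspos δ hδ hδ1)
    (fun ε' hε' => openm h1 hA hP.fix hg hD ε' hε')

end Pool.Agent.Y547.PC
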